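import Pool.Agent.Lib.MP_035963_ag.HB.Top

/-! An element of the scalar extension of the image of the cycle class map whose class is
numerically trivial is zero (so the map of the problem is injective, and homological and numerical
equivalence agree), when no Tate family of stable flags has a member on which the chosen algebraic
forms vanish, and the Tate classes of determinant type of the whole pieces are algebraic. -/

namespace Pool.Agent.Results.MP_035963_ag.IsotropicTate

open CategoryTheory AlgebraicGeometry TensorProduct Pool.Agent.Lib.MP_035963_ag.HN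

theorem result {k Λ : Type} [Field k] [Field Λ] [CharZero Λ] (H : Over (Spec (.of k)) → Type)
    [∀ X, Ring (H X)] [∀ X, Algebra Λ (H X)] [∀ X, Module ℚ (H X)] (W : Coh Λ H) (hW : W.Weil)
    (X Z : Over (Spec (.of k))) (hX : W.V X) (hZ : W.V Z) (r : ℕ) (π : Fin r → (Z ⟶ X))
    (h : W.Gap π) (z : Λ ⊗[ℚ] W.A Z)
    (hz : ∀ x, W.tr Z ((W.A Z).subtype.liftBaseChange Λ z * W.cl Z x) = 0) : z = 0 := by
  refine inj3 hW hX hZ h ((nondeg3 hW hX hZ h ?_ hz).trans (map_zero _).symm)
  clear hz
  induction z with
  | zero => simp
  | tmul c a => exact Submodule.smul_mem _ _ (A_le a.2)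
  | add _ _ a b => exact map_add ((W.A Z).subtype.liftBaseChange Λ) _ _ ▸ add_mem a b

end Pool.Agent.Results.MP_035963_ag.IsotropicTate
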